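import Pool.Agent.Lib.MP_e32f22_lc.Comp
import Pool.Agent.Lib.MP_a28c52_lc.Final

/-!
Finding a shortest solution of the Permutation Puzzle is NP-hard.
-/

namespace Pool.Agent.Results.MP_e32f22_lc.ShortestIsNPHard

open Pool.Agent.Lib.MP_e32f22_lc N68a2faeb CookLevin

theorem agree_dirs (l : List (List Dir)) :
    (N487b59b3.toEncoding (α := List (List Dir))).encode l = HerCo.enc l := by
  have h1 : ∀ d : Dir, HerCo.enc (_root_.id d) = N487b59b3.bitEncode d := fun d =>
    agree_pair (f := _root_.id) (g := _root_.id) (fun _ => rfl) (fun _ => rfl) d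
  have h2 := agree_list (f := List.map _root_.id) (agree_list h1) l
  have h3 : l.map (List.map _root_.id) = l := by simp
  rw [h3] at h2
  exact h2.symm

theorem fp_any {T : List Bool → ℕ} (hT : HerCo.FP .poly T) :
    HerCo.FP .poly (fun y : List Bool × List (List Dir) =>
      y.2.any fun w => decide (w.length ≤ T y.1)) := by
  have h1 : HerCo.FP .poly (fun p : (List Bool × List (List Dir)) × List Dir => T p.1.1) :=
    hT.comp (HerCo.FP.fst (HerCo.FP.fst HerCo.FP.id))
  exact HerCo.FP.anyB (l := fun y : List Bool × List (List Dir) => y.2)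
    (g := fun (y : List Bool × List (List Dir)) (w : List Dir) => decide (w.length ≤ T y.1))
    (by fun_prop) (by fun_prop)

/-- **Finding a shortest solution of the Permutation Puzzle is NP-hard.** -/
theorem result : Pool.Agent.Lib.MP_e32f22_lc.FindingShortestIsNPHard := by
  intro L hL
  obtain ⟨f, hf, h0, hne, hS⟩ := cook_levin hL
  have hlow : ∀ x, L x = true ↔
      ∃ w, IsSolution (theInst (f x)) w ∧ w.length ≤ theBound (f x) := by
    intro x
    rw [hS x, ← puzzle_iff (h0 x) (hne x), theBound_eq]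
    rfl
  refine ⟨fun x => theInst (f x), fun x => theBound (f x),
    fun y => y.2.any fun w => decide (w.length ≤ theBound (f y.1)), ?_, ?_, ?_,
    fun x => ⟨(sl (f x)).isInstance_inst, hlow x, fun S hSol => ?_⟩⟩
  · exact HerCo.Cp.toTM2 (HerCo.Cp.of_eq (FP.binst hf)
      (fun x => (HerCo.encode_list x).symm) fun x => enc_binst (f x))
  · exact HerCo.Cp.toTM2 (HerCo.Cp.of_eq (FP.bn (FP.theBound hf))
      (fun x => (HerCo.encode_list x).symm) fun _ => rfl)
  · refine (HerCo.isPolyTime_iff _ (fun y => ?_) HerCo.encode_bool).2 ?_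
    · exact (agree_pair (f := _root_.id) (g := _root_.id)
        (fun a => (HerCo.encode_list a).symm) (fun a => (agree_dirs a).symm) y).symm
    · exact fp_any (FP.theBound hf)
  · rw [Bool.eq_iff_iff, hlow x]
    rcases hSol _ (sl (f x)).isInstance_inst with ⟨w, hw, h1⟩ | ⟨hno, h1⟩
    · show _ ↔ ((S (sl (f x)).inst).any fun w => decide (w.length ≤ theBound (f x))) = true
      rw [h1]
      simp only [List.any_cons, List.any_nil, Bool.or_false, decide_eq_true_eq]
      constructor
      · rintro ⟨w', h2, h3⟩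
        exact (hw.2 w' h2).trans h3
      · intro h2
        exact ⟨w, hw.1, h2⟩
    · show _ ↔ ((S (sl (f x)).inst).any fun w => decide (w.length ≤ theBound (f x))) = true
      rw [h1]
      simp only [List.any_nil, Bool.false_eq_true, iff_false]
      rintro ⟨w, h2, _⟩
      exact hno ⟨w, h2⟩

/-- There is a function that solves the Permutation Puzzle (so the last part of the result is
not vacuous). -/
theorem exists_solver : ∃ S, Solver S := by
  classical
  have h : ∀ I : Tokens × Tokens, ∃ r : List (List Dir),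
      (∃ w, IsShortest I w ∧ r = [w]) ∨ ((¬ ∃ w, IsSolution I w) ∧ r = []) := by
    intro I
    by_cases hI : ∃ w, IsSolution I w
    · have hn : ∃ n, ∃ w, IsSolution I w ∧ w.length = n := by
        obtain ⟨w, hw⟩ := hI
        exact ⟨_, w, hw, rfl⟩
      obtain ⟨w, hw, hl⟩ := Nat.find_spec hn
      refine ⟨[w], Or.inl ⟨w, ⟨hw, fun w' hw' => ?_⟩, rfl⟩⟩
      rw [hl]
      exact Nat.find_min' hn ⟨w', hw', rfl⟩
    · exact ⟨[], Or.inr ⟨hI, rfl⟩⟩
  choose S hS using h
  exact ⟨S, fun I _ => hS I⟩

/-- If some polynomial-time function solves the Permutation Puzzle, then P = NP. -/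
theorem p_eq_np (h : ∃ S : Tokens × Tokens → List (List Dir), IsPolyTime S ∧ Solver S) :
    P = NP := by
  obtain ⟨S, ⟨hS⟩, hSol⟩ := h
  refine Set.Subset.antisymm HerCo.P_subset_NP fun L hL => ?_
  obtain ⟨f, k, g, ⟨hf⟩, _, hg, hx⟩ := result L hL
  have h1 := HerCo.Cp.ofTM2 hf
  have h2 := HerCo.Cp.reindex (HerCo.Cp.ofTM2 hS) f
  have h3 := HerCo.Cp.ofTM2 (Classical.choice hg)
  have h4 : HerCo.Cp .poly (fun x => (N487b59b3.toEncoding (α := List Bool)).encode x)
      (fun x => (N487b59b3.toEncoding (α := List (List Dir))).encode (S (f x))) := h2.comp h1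
  have h5 := HerCo.Cp.pair HerCo.Cp.id h4
  have h6 := HerCo.Cp.reindex h3 (fun x => (x, S (f x)))
  have h7 : HerCo.Cp .poly (fun x => (N487b59b3.toEncoding (α := List Bool)).encode x)
      (fun x => (N487b59b3.toEncoding (α := Bool)).encode (L x)) := by
    refine (h6.comp (h5.of_eq (fun _ => rfl) fun x => ?_)).of_eq (fun _ => rfl) fun x => ?_
    · show _ = N487b59b3.delimit _ ++ _
      rw [HerCo.delimit_eq]
      rfl
    · rw [(hx x).2.2 S hSol]
  exact HerCo.Cp.toTM2 h7

end Pool.Agent.Results.MP_e32f22_lc.ShortestIsNPHard
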